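import Pool.Agent.Q327.KFinal

/-!
# No uniform threshold for the complexity relative to `RT^1_2` solutions
-/

set_option autoImplicit false

namespace Pool.Agent.Results.MP_7b562e_lc.NoUniformThreshold

open Pool.Agent.Q327.KM

/-- Universal oracle machines and universal conditional machines exist, and there is one set `A` such
that for all of them, every `N` and every `m` some string `σ` has
`C(σ | RT^1_2(A)) + m ≤ C(σ | ≥ N)`; both complexities are maxima that are attained. -/
theorem result :
    (∃ U : OracleMachine, UniversalOracle U) ∧
    (∃ D : List Bool → ℕ →. List Bool, UniversalCond D) ∧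
    ∃ A : Set ℕ, ∀ (U : OracleMachine) (D : List Bool → ℕ →. List Bool),
      UniversalOracle U → UniversalCond D → ∀ N m : ℕ, ∃ (σ : List Bool) (a b : ℕ),
        IsGreatest {k | ∃ X ∈ RT A, k = oracleC U X σ} a ∧
        IsGreatest {k | ∃ n, N ≤ n ∧ k = condC D σ n} b ∧ a + m ≤ b :=
  ⟨⟨univOracle, univOracle_universal⟩, ⟨univCond, univCond_universal⟩, main⟩

end Pool.Agent.Results.MP_7b562e_lc.NoUniformThreshold
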